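import Pool.Agent.H.MP_7b9a49_nt.A

namespace Pool.Agent.Results.MP_7b9a49_nt.No

open Polynomial Pool.Agent.H.MP_7b9a49_nt

/-- the height of `f`: the largest absolute value of a coefficient -/
def H (f : ℤ[X]) : ℕ := f.support.sup fun i => (f.coeff i).natAbs

/-- product of `Φ_d` over the divisors `d` of `n` with `ω(d)` odd -/
noncomputable def Podd (n : ℕ) : ℤ[X] :=
  ∏ d ∈ n.divisors with Odd d.primeFactors.card, cyclotomic d ℤ

/-- product of `Φ_d` over the divisors `d` of `n` with `ω(d)` even -/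
noncomputable def Peven (n : ℕ) : ℤ[X] :=
  ∏ d ∈ n.divisors with Even d.primeFactors.card, cyclotomic d ℤ

theorem aux (f g : ℤ[X]) (i : ℕ) (h1 : ∀ i, |g.coeff i| ≤ (8415683487216 : ℕ))
    (h2 : f.coeff i = (9401697462912 : ℕ)) : H g < H f := by
  have a : H g ≤ 8415683487216 :=
    Finset.sup_le fun j _ => by have := h1 j; rw [Int.abs_eq_natAbs] at this; omega
  have := Finset.le_sup (f := fun i => (f.coeff i).natAbs)
    (mem_support_iff.2 (show f.coeff i ≠ 0 by omega))
  simp only [h2] at this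
  exact lt_of_le_of_lt a (lt_of_lt_of_le (by norm_num) this)

theorem aux2 (n : ℕ) (S T : Finset ℕ)
    (h : (n.divisors.filter fun d => Odd d.primeFactors.card) = S ∧
      (n.divisors.filter fun d => Even d.primeFactors.card) = T) :
    Podd n = ∏ d ∈ S, cyclotomic d ℤ ∧ Peven n = ∏ d ∈ T, cyclotomic d ℤ := by
  rw [Podd, Peven, h.1, h.2]; exact ⟨rfl, rfl⟩

theorem result : ∃ n : ℕ, 1 < n ∧ Squarefree n ∧
    ∃ f : ℤ[X], f ∣ X ^ n - 1 ∧ H (Podd n) < H f ∧ H (Peven n) < H f := by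
  obtain ⟨f, h1, h2⟩ := big
  obtain ⟨e1, e2⟩ := aux2 10374 _ _ c5
  refine ⟨10374, by norm_num, by decide +kernel, f, h1, aux f _ _ (fun i => ?_) h2,
    aux f _ _ (fun i => ?_) h2⟩
  · rw [e1]; exact od i
  · rw [e2]; exact ev i

end Pool.Agent.Results.MP_7b9a49_nt.No
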